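import Pool.Agent.W289.CG.Stm

set_option autoImplicit false

namespace Pool.Agent.W349.CG

open Polynomial Pool.Agent.W289.CG

theorem mu : TaskMu := by
  intro q hq d hd ⟨ζ, hζ⟩
  have hd0 : d ≠ 0 := by
    rintro rfl
    exact hd (dvd_zero q)
  have h1 : ‖ζ‖ = 1 := by
    have h2 : ‖ζ‖ ^ d = 1 := by rw [← norm_pow, hζ.pow_eq_one, norm_one]
    exact (pow_eq_one_iff_of_nonneg (norm_nonneg _) hd0).1 h2
  set z : ℤ_[q] := ⟨ζ, h1.le⟩ with hz
  have hz1 : IsPrimitiveRoot z d := by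
    apply IsPrimitiveRoot.of_map_of_injective (f := PadicInt.Coe.ringHom (p := q))
    · exact hζ
    · exact Subtype.coe_injective
  haveI : NeZero ((d : ℕ) : ℤ_[q]) := ⟨by exact_mod_cast hd0⟩
  haveI : NeZero ((d : ℕ) : ZMod q) := ⟨by
    rw [Ne, ZMod.natCast_eq_zero_iff]
    exact hd⟩
  have h2 : IsRoot (cyclotomic d ℤ_[q]) z := (isRoot_cyclotomic_iff).2 hz1
  have h3 : IsRoot (cyclotomic d (ZMod q)) (PadicInt.toZMod z) := by
    have := h2.map (f := PadicInt.toZMod (p := q))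
    rwa [map_cyclotomic] at this
  have h4 : IsPrimitiveRoot (PadicInt.toZMod z) d := (isRoot_cyclotomic_iff).1 h3
  apply h4.dvd_of_pow_eq_one
  apply ZMod.pow_card_sub_one_eq_one
  intro h0
  rw [h0] at h4
  have := h4.pow_eq_one
  rw [zero_pow hd0] at this
  exact zero_ne_one this

theorem norm_one_of_toZMod {q : ℕ} [Fact q.Prime] (u : ℤ_[q]) (h : PadicInt.toZMod u ≠ 0) :
    ‖(u : ℚ_[q])‖ = 1 := by
  by_contra hne
  have h1 : ‖u‖ < 1 := lt_of_le_of_ne u.2 hne
  apply h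
  have h2 : u ∈ RingHom.ker (PadicInt.toZMod (p := q)) := by
    rw [PadicInt.ker_toZMod, IsLocalRing.mem_maximalIdeal, PadicInt.mem_nonunits]
    exact h1
  exact h2

theorem red : TaskRed := by
  intro K _ q hq ℓ N θ c φ z x hℓ hφ hx hne e e' y hdvd hcase
  choose f hf using hdvd
  set u : Fin N → ℤ_[q] := fun i => z - (c i : ℤ_[q]) with hu
  have hured : ∀ i, PadicInt.toZMod (u i) = x - (c i : ZMod q) := by
    intro i
    simp only [hu, map_sub, map_intCast, hx]
  have hunorm : ∀ i, ‖((u i : ℤ_[q]) : ℚ_[q])‖ = 1 := by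
    intro i
    apply norm_one_of_toZMod
    rw [hured]
    exact sub_ne_zero.2 (hne i)
  have hφu : ∀ i, φ (θ - (c i : K)) = ((u i : ℤ_[q]) : ℚ_[q]) := by
    intro i
    simp only [hu, map_sub, map_intCast, hφ]
    push_cast
    rfl
  have hne0 : ∀ i, θ - (c i : K) ≠ 0 := by
    intro i h0
    have := hunorm i
    rw [← hφu, h0, map_zero, norm_zero] at this
    exact zero_ne_one this
  set w : K := y * ∏ i, (θ - (c i : K)) ^ (- f i) with hw
  have hprod : (∏ i, (θ - (c i : K)) ^ e i) * (∏ i, (θ - (c i : K)) ^ (- f i)) ^ ℓ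
      = ∏ i, (θ - (c i : K)) ^ (e' i) := by
    rw [← Finset.prod_pow, ← Finset.prod_mul_distrib]
    apply Finset.prod_congr rfl
    intro i _
    rw [← zpow_natCast, ← zpow_mul, ← zpow_add₀ (hne0 i), ← zpow_natCast]
    congr 1
    have := hf i
    linarith
  have key : ∀ s : ℤ, (s = 1 ∨ s = -1) → (∏ i, (θ - (c i : K)) ^ e i = (s : K) * y ^ ℓ) →
      ∃ y' : ZMod q, ∏ i, (x - (c i : ZMod q)) ^ e' i = (s : ZMod q) * y' ^ ℓ := by
    intro s hs hy
    have hwl : ∏ i, (θ - (c i : K)) ^ (e' i) = (s : K) * w ^ ℓ := by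
      rw [← hprod, hy, hw, mul_pow]
      ring
    have hφw : ∏ i, ((u i : ℤ_[q]) : ℚ_[q]) ^ (e' i) = (s : ℚ_[q]) * (φ w) ^ ℓ := by
      have := congrArg φ hwl
      rw [map_prod, map_mul, map_intCast, map_pow] at this
      rw [← this]
      apply Finset.prod_congr rfl
      intro i _
      rw [map_pow, hφu]
    have hns : ‖(s : ℚ_[q])‖ = 1 := by
      rcases hs with rfl | rfl <;> simp
    have hn : ‖φ w‖ = 1 := by
      have h1 := congrArg norm hφw
      rw [norm_prod, norm_mul, hns, one_mul, norm_pow] at h1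
      have h2 : ∏ i, ‖((u i : ℤ_[q]) : ℚ_[q]) ^ (e' i)‖ = 1 := by
        apply Finset.prod_eq_one
        intro i _
        rw [norm_pow, hunorm, one_pow]
      rw [h2] at h1
      exact (pow_eq_one_iff_of_nonneg (norm_nonneg _) hℓ.ne_zero).1 h1.symm
    set W : ℤ_[q] := ⟨φ w, hn.le⟩ with hW
    have hWl : ∏ i, (u i) ^ (e' i) = (s : ℤ_[q]) * W ^ ℓ := by
      apply Subtype.coe_injective
      have : (PadicInt.Coe.ringHom (p := q)) (∏ i, (u i) ^ (e' i))
          = (PadicInt.Coe.ringHom (p := q)) ((s : ℤ_[q]) * W ^ ℓ) := by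
        rw [map_prod, map_mul, map_intCast, map_pow]
        simp_rw [map_pow]
        exact hφw
      exact this
    refine ⟨PadicInt.toZMod W, ?_⟩
    have := congrArg (PadicInt.toZMod (p := q)) hWl
    rw [map_prod, map_mul, map_intCast, map_pow] at this
    rw [← this]
    apply Finset.prod_congr rfl
    intro i _
    rw [map_pow, hured]
  rcases hcase with hy | hy
  · obtain ⟨y', hy'⟩ := key 1 (Or.inl rfl) (by rw [hy]; push_cast; ring)
    exact ⟨y', Or.inl (by rw [hy']; push_cast; ring)⟩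
  · obtain ⟨y', hy'⟩ := key (-1) (Or.inr rfl) (by rw [hy]; push_cast; ring)
    exact ⟨y', Or.inr (by rw [hy']; push_cast; ring)⟩

end Pool.Agent.W349.CG
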