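import Pool.Agent.W289.CG.Stm
import Pool.Agent.H435R3.Weil.Main

set_option autoImplicit false

namespace Pool.Agent.W349.CG.WeilT

open Polynomial Pool.Agent.W289.CG Finset Pool.Agent.H435R3.Weil

section Gen

variable {F : Type} [Field F] [Fintype F] [DecidableEq F]

/-- an element on which a character of order `m` is trivial is an `m`-th power -/
theorem pow_of_char (χ : MulChar F ℂ) (m : ℕ) (hχ : orderOf χ = m) (z : Fˣ) (hz : χ z = 1) :
    ∃ u : Fˣ, z = u ^ m := by
  obtain ⟨g, hg⟩ := IsCyclic.exists_generator (α := Fˣ)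
  have h1 := hg z
  rw [← mem_powers_iff_mem_zpowers] at h1
  obtain ⟨s, hs⟩ := h1
  simp only at hs
  have h2 : χ ^ s = 1 := by
    rw [MulChar.eq_iff hg, MulChar.pow_apply_coe, MulChar.one_apply_coe, ← map_pow]
    rw [← hz, ← hs]
    push_cast
    rfl
  have h3 : m ∣ s := by
    rw [← hχ]
    exact orderOf_dvd_of_pow_eq_one h2
  obtain ⟨r, rfl⟩ := h3
  refine ⟨g ^ r, ?_⟩
  rw [← hs, ← pow_mul, mul_comm]

/-- the value at `-1` -/
theorem char_neg_one (χ : MulChar F ℂ) (m : ℕ) (hχ : χ ^ m = 1) (hm : 2 * m ∣ Fintype.card F - 1) :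
    χ (-1) = 1 := by
  obtain ⟨g, hg⟩ := IsCyclic.exists_generator (α := Fˣ)
  have h1 := hg (-1)
  rw [← mem_powers_iff_mem_zpowers] at h1
  obtain ⟨s, hs⟩ := h1
  simp only at hs
  have h2 : g ^ (2 * s) = 1 := by
    rw [mul_comm, pow_mul, hs]
    simp
  have h3 : orderOf g = Fintype.card F - 1 := by
    rw [orderOf_eq_card_of_forall_mem_zpowers hg, Nat.card_eq_fintype_card, Fintype.card_units]
  have h4 : 2 * m ∣ 2 * s := by
    refine hm.trans ?_
    rw [← h3]
    exact orderOf_dvd_of_pow_eq_one h2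
  have h5 : m ∣ s := Nat.dvd_of_mul_dvd_mul_left (by norm_num) h4
  obtain ⟨r, rfl⟩ := h5
  have h6 : ((-1 : Fˣ) : F) = -1 := by simp
  rw [← h6, ← hs]
  push_cast
  rw [map_pow, pow_mul, ← MulChar.pow_apply_coe, hχ, MulChar.one_apply_coe, one_pow]

theorem weilpow (χ : MulChar F ℂ) (m d t : ℕ) (hord : orderOf χ = m) (hm : d * t = m)
    (ht : 2 ≤ t) (hd : 1 ≤ d) (hmF : m ∣ Fintype.card F - 1) (P : F[X]) (hP : P.Monic)
    (hc : Cop t P) :
    ‖∑ x : F, χ (P.eval x ^ d)‖ ≤ P.natDegree * Real.sqrt (Fintype.card F) := by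
  have h1 : (χ ^ d) ^ t = 1 := by
    rw [← pow_mul, hm, ← hord, pow_orderOf_eq_one]
  have h2 : χ ^ d ≠ 1 := by
    intro h
    have h3 : m ∣ d := by
      rw [← hord]
      exact orderOf_dvd_of_pow_eq_one h
    have h4 := Nat.le_of_dvd (by omega) h3
    nlinarith
  have h3 := weil t ht ((Dvd.intro_left d hm).trans hmF) (χ ^ d) h2 h1 P 1 hP monic_one
    (by rw [one_pow, mul_one]; exact hc)
  have h4 : ∀ x : F, (χ ^ d) (P.eval x) * (starRingEnd ℂ) ((χ ^ d) ((1 : F[X]).eval x))
      = χ (P.eval x ^ d) := by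
    intro x
    rw [MulChar.pow_apply' _ (by omega), eval_one]
    simp
  simp_rw [h4] at h3
  simpa using h3

theorem rm_formula {ι : Type} [Fintype ι] (A B : F[X]) (hA : A ≠ 0) (hB : B ≠ 0) (pt : ι → F)
    (g : ι → ℕ) (i e : ℕ) (v : F) :
    rootMultiplicity v (A ^ i * B ^ e * ∏ p, (X - C (pt p)) ^ (g p)) =
      i * rootMultiplicity v A + e * rootMultiplicity v B +
        ∑ p, g p * (if pt p = v then 1 else 0) := by
  have h1 : A ^ i ≠ 0 := pow_ne_zero _ hA
  have h2 : B ^ e ≠ 0 := pow_ne_zero _ hB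
  have h3 : ∏ p, (X - C (pt p)) ^ (g p) ≠ 0 := by
    rw [prod_ne_zero_iff]
    intro p _
    exact pow_ne_zero _ (X_sub_C_ne_zero _)
  rw [rootMultiplicity_mul (mul_ne_zero (mul_ne_zero h1 h2) h3),
    rootMultiplicity_mul (mul_ne_zero h1 h2)]
  have h4 : ∀ (P : F[X]) (s : ℕ), rootMultiplicity v (P ^ s) = s * rootMultiplicity v P := by
    intro P s
    rw [← count_roots, ← count_roots, roots_pow, Multiset.count_nsmul]
  rw [h4, h4]
  congr 1
  rw [← count_roots, roots_prod _ _ h3, Multiset.count_bind]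
  have h5 : (Multiset.map (fun b => Multiset.count v (((X - C (pt b)) ^ (g b) : F[X])).roots)
      (univ : Finset ι).val).sum = ∑ b, Multiset.count v (((X - C (pt b)) ^ (g b) : F[X])).roots :=
    rfl
  rw [h5]
  apply sum_congr rfl
  intro p _
  rw [roots_pow, Multiset.count_nsmul, roots_X_sub_C, Multiset.count_singleton]
  congr 1
  by_cases h : pt p = v
  · rw [if_pos h, if_pos h.symm]
  · rw [if_neg h, if_neg (Ne.symm h)]

theorem rm_simple (P : F[X]) (hP : P ≠ 0) (v : F) (h0 : P.eval v = 0)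
    (h1 : (derivative P).eval v ≠ 0) : rootMultiplicity v P = 1 := by
  have h2 : 0 < rootMultiplicity v P := (rootMultiplicity_pos hP).2 h0
  have h3 : ¬ 1 < rootMultiplicity v P := by
    rw [one_lt_rootMultiplicity_iff_isRoot hP]
    rintro ⟨-, h⟩
    exact h1 h
  omega

theorem rm_zero (P : F[X]) (v : F) (h0 : P.eval v ≠ 0) : rootMultiplicity v P = 0 :=
  rootMultiplicity_eq_zero h0

theorem pA_monic {n : ℕ} (a : Fin n → F) : (pA a).Monic :=
  monic_prod_of_monic _ _ fun i _ => monic_X_sub_C _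

theorem pA_natDegree {n : ℕ} (a : Fin n → F) : (pA a).natDegree = n := by
  unfold pA
  rw [natDegree_prod_of_monic _ _ fun i _ => monic_X_sub_C _]
  simp

theorem rm_pA {n : ℕ} (a : Fin n → F) (ha : Function.Injective a) (j : Fin n) :
    rootMultiplicity (a j) (pA a) = 1 := by
  have h := rm_formula (1 : F[X]) 1 one_ne_zero one_ne_zero a (fun _ => 1) 0 0 (a j)
  simp only [pow_zero, one_mul, pow_one, zero_mul, zero_add] at h
  unfold pA
  rw [h, sum_eq_single j]
  · simp
  · intro i _ hij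
    rw [if_neg]
    exact fun h => hij (ha h)
  · simp

theorem norm_char_le (χ : MulChar F ℂ) (x : F) : ‖χ x‖ ≤ 1 := by
  by_cases h : IsUnit x
  · obtain ⟨u, rfl⟩ := h
    have h1 : (χ u) ^ (Fintype.card Fˣ) = 1 := by
      rw [← map_pow, ← Units.val_pow_eq_pow_val, pow_card_eq_one]
      simp
    have h2 : ‖χ u‖ ^ (Fintype.card Fˣ) = 1 := by rw [← norm_pow, h1, norm_one]
    exact ((pow_eq_one_iff_of_nonneg (norm_nonneg _) Fintype.card_ne_zero).1 h2).le
  · rw [χ.map_nonunit h, norm_zero]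
    exact zero_le_one

theorem bound {n : ℕ} {ι : Type} [Fintype ι] (χ : MulChar F ℂ) (m d t i1 : ℕ)
    (hord : orderOf χ = m) (hm : d * t = m) (ht : 2 ≤ t) (hd : 1 ≤ d)
    (hmF : m ∣ Fintype.card F - 1) (hi : i1 ≤ t) (A B : F[X]) (hA : A.Monic) (hB : B.Monic)
    (hAn : A.natDegree = n) (hBn : B.natDegree = n) (pt : ι → F) (g : ι → ℕ) (G : ℕ)
    (hG : ∑ p, g p ≤ G) (v : F)
    (hv : Nat.Coprime (rootMultiplicity v
      (A ^ i1 * B ^ (t - i1) * ∏ p, (X - C (pt p)) ^ (g p))) t) :
    ‖∑ x : F, χ (A.eval x ^ (i1 * d) * B.eval x ^ ((t - i1) * d) *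
      ∏ p, (x - pt p) ^ (g p * d))‖ ≤ ((n * m + G : ℕ) : ℝ) * Real.sqrt (Fintype.card F) := by
  have hPm : (∏ p, (X - C (pt p)) ^ (g p)).Monic :=
    monic_prod_of_monic _ _ fun p _ => (monic_X_sub_C _).pow _
  have hmon : (A ^ i1 * B ^ (t - i1) * ∏ p, (X - C (pt p)) ^ (g p)).Monic :=
    ((hA.pow _).mul (hB.pow _)).mul hPm
  have h1 := weilpow χ m d t hord hm ht hd hmF _ hmon ⟨v, hv⟩
  have h2 : (A ^ i1 * B ^ (t - i1) * ∏ p, (X - C (pt p)) ^ (g p)).natDegree ≤ n * m + G := by
    rw [((hA.pow _).mul (hB.pow _)).natDegree_mul hPm, (hA.pow _).natDegree_mul (hB.pow _),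
      hA.natDegree_pow, hB.natDegree_pow, hAn, hBn,
      natDegree_prod_of_monic _ _ fun p _ => (monic_X_sub_C (pt p)).pow _]
    have h3 : ∑ p, ((X - C (pt p)) ^ (g p) : F[X]).natDegree = ∑ p, g p := by
      apply sum_congr rfl
      intro p _
      rw [(monic_X_sub_C (pt p)).natDegree_pow, natDegree_X_sub_C, mul_one]
    rw [h3]
    have h4 : i1 * n + (t - i1) * n = t * n := by
      rw [← add_mul]
      congr 1
      omega
    have h5 : t * n ≤ n * m := by
      rw [mul_comm n m]
      apply Nat.mul_le_mul_right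
      rw [← hm]
      exact Nat.le_mul_of_pos_left t (by omega)
    omega
  have h3 : ∀ x : F, χ (A.eval x ^ (i1 * d) * B.eval x ^ ((t - i1) * d) *
      ∏ p, (x - pt p) ^ (g p * d)) =
      χ ((A ^ i1 * B ^ (t - i1) * ∏ p, (X - C (pt p)) ^ (g p)).eval x ^ d) := by
    intro x
    congr 1
    rw [eval_mul, eval_mul, eval_pow, eval_pow, eval_prod, mul_pow, mul_pow, ← pow_mul, ← pow_mul,
      ← prod_pow]
    congr 1
    apply prod_congr rfl
    intro p _
    rw [eval_pow, eval_sub, eval_X, eval_C, ← pow_mul]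
  simp_rw [h3]
  refine h1.trans ?_
  apply mul_le_mul_of_nonneg_right _ (Real.sqrt_nonneg _)
  exact_mod_cast h2

theorem cop_aux (l m1 i1 h : ℕ) (hl : l.Prime) (hc : Nat.Coprime i1 m1) (hli : l ∣ i1)
    (hh : ¬ l ∣ h) : Nat.Coprime (i1 + m1 * h) (l * m1) := by
  apply Nat.Coprime.mul_right
  · apply Nat.Coprime.symm
    rw [Nat.Prime.coprime_iff_not_dvd hl]
    intro h1
    have h2 : l ∣ m1 * h := (Nat.dvd_add_right hli).1 h1
    rcases hl.dvd_mul.1 h2 with h3 | h3
    · have h4 := Nat.dvd_gcd hli h3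
      rw [hc] at h4
      exact hl.one_lt.ne' (Nat.dvd_one.1 h4)
    · exact hh h3
  · rw [Nat.coprime_add_mul_left_left]
    exact hc

theorem cop_aux2 (l m1 i1 h : ℕ) (hl : l.Prime) (hc : Nat.Coprime i1 m1) (hli : l ∣ i1)
    (hi : i1 ≤ l * m1)
    (hh : ¬ l ∣ h) : Nat.Coprime (l * m1 - i1 + m1 * h) (l * m1) := by
  apply cop_aux l m1 (l * m1 - i1) h hl _ ((Nat.dvd_sub (dvd_mul_right _ _) hli)) hh
  have h1 : (l * m1 - i1).gcd m1 ∣ i1 := by
    have h2 : (l * m1 - i1).gcd m1 ∣ l * m1 := (Nat.gcd_dvd_right _ _).trans (dvd_mul_left _ _)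
    have h3 := Nat.dvd_sub h2 (Nat.gcd_dvd_left (l * m1 - i1) m1)
    rwa [Nat.sub_sub_self hi] at h3
  have h2 := Nat.dvd_gcd h1 (Nat.gcd_dvd_right (l * m1 - i1) m1)
  rw [hc] at h2
  exact Nat.dvd_one.1 h2

theorem cop_aux3 (t i1 : ℕ) (hc : Nat.Coprime i1 t) (hi : i1 ≤ t) : Nat.Coprime (t - i1) t := by
  have h1 : (t - i1).gcd t ∣ i1 := by
    have h3 := Nat.dvd_sub (Nat.gcd_dvd_right (t - i1) t) (Nat.gcd_dvd_left (t - i1) t)
    rwa [Nat.sub_sub_self hi] at h3
  have h2 := Nat.dvd_gcd h1 (Nat.gcd_dvd_right (t - i1) t)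
  rw [hc] at h2
  exact Nat.dvd_one.1 h2

theorem gen (n k m : ℕ) (hn : 1 ≤ n) (hm : 2 ≤ m)
    (hQ : (2 * m * (n * m + m * m * (n + k)) + n + 6 * n * m + 1) ^ 2 ≤ Fintype.card F)
    (h2m : 2 * m ∣ Fintype.card F - 1)
    (a : Fin n → F) (b : Fin k → F) (c β : F)
    (ha : Function.Injective a) (hb : Function.Injective b) (hc : c ≠ 0)
    (hab : ∀ j, (pA a).eval (b j) = c) (hder : ∀ j, (derivative (pA a)).eval (b j) ≠ 0)
    (hβ : (pA a).eval β = c) (hβ' : (derivative (pA a)).eval β ≠ 0) (hβb : ∀ j, β ≠ b j)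
    (ℓ : ℕ) (hℓ : ℓ.Prime) (hℓm : ℓ ∣ m) (h : Fin n ⊕ Fin k → ℕ) (hp : ∃ p, ¬ ℓ ∣ h p)
    (hneg : ∀ x u : F, (pA a).eval x ≠ 0 → (pA a).eval x ≠ c → (derivative (pA a)).eval x ≠ 0 →
      u ≠ 0 → (pA a).eval x = u ^ m * ((pA a).eval x - c) →
      ∃ y : F, ∏ p, (x - Sum.elim a b p) ^ h p = y ^ ℓ ∨
        ∏ p, (x - Sum.elim a b p) ^ h p = - y ^ ℓ) :
    False := by
  obtain ⟨p0, hp0⟩ := hp
  have hcard1 : 1 < Fintype.card F := Fintype.one_lt_card
  have hmF : m ∣ Fintype.card F - 1 := (dvd_mul_left m 2).trans h2m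
  obtain ⟨χ, hord⟩ := MulChar.exists_mulChar_orderOf F hmF (Complex.isPrimitiveRoot_exp m (by omega))
  have hχm : χ ^ m = 1 := by rw [← hord, pow_orderOf_eq_one]
  have hχ0 : ∀ x : F, x ≠ 0 → χ x ^ m = 1 := by
    intro x hx
    rw [← MulChar.pow_apply' _ (by omega), hχm, MulChar.one_apply (isUnit_iff_ne_zero.2 hx)]
  set A := pA a with hA
  set B := A - C c with hB
  have hAm : A.Monic := pA_monic a
  have hAn : A.natDegree = n := pA_natDegree a
  have hAdeg : A.degree = n := by rw [degree_eq_natDegree hAm.ne_zero, hAn]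
  have hBm : B.Monic := by
    apply Monic.sub_of_left hAm
    refine degree_C_le.trans_lt ?_
    rw [hAdeg]
    exact_mod_cast hn
  have hBn : B.natDegree = n := by rw [hB, natDegree_sub_C, hAn]
  have hBe : ∀ x, B.eval x = A.eval x - c := fun x => by rw [hB, eval_sub, eval_C]
  have hBd : derivative B = derivative A := by rw [hB, derivative_sub, derivative_C, sub_zero]
  set pt := Sum.elim a b with hpt
  have hAa : ∀ i, A.eval (a i) = 0 := by
    intro i
    rw [hA]
    unfold pA
    rw [eval_prod]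
    apply prod_eq_zero (mem_univ i)
    simp
  have hptinj : Function.Injective pt := by
    rintro (i | i) (j | j) hij
    · rw [ha hij]
    · exfalso
      have h1 : a i = b j := hij
      have h2 := hab j
      rw [← h1, hAa] at h2
      exact hc h2.symm
    · exfalso
      have h1 : b i = a j := hij
      have h2 := hab i
      rw [h1, hAa] at h2
      exact hc h2.symm
    · rw [hb hij]
  have hβpt : ∀ p, pt p ≠ β := by
    rintro (i | i) h1
    · have h2 : a i = β := h1
      rw [← h2, hAa] at hβ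
      exact hc hβ.symm
    · exact hβb i h1.symm
  have hsumpt : ∀ (g : Fin n ⊕ Fin k → ℕ) (q : Fin n ⊕ Fin k),
      ∑ p, g p * (if pt p = pt q then 1 else 0) = g q := by
    intro g q
    rw [sum_eq_single q]
    · simp
    · intro p _ hpq
      rw [if_neg (fun h1 => hpq (hptinj h1)), mul_zero]
    · simp
  have hsumβ : ∀ (g : Fin n ⊕ Fin k → ℕ), ∑ p, g p * (if pt p = β then 1 else 0) = 0 := by
    intro g
    apply sum_eq_zero
    intro p _
    rw [if_neg (hβpt p), mul_zero]
  have hA0 := hAm.ne_zero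
  have hB0 := hBm.ne_zero
  set D : ℕ := n * m + m * m * (n + k) with hD
  -- the reduced exponents
  set h' : Fin n ⊕ Fin k → ℕ := fun p => h p % ℓ with hh'
  obtain ⟨M, hM⟩ := hℓm
  have hM0 : 0 < M := by
    rcases Nat.eq_zero_or_pos M with h1 | h1
    · rw [h1, mul_zero] at hM
      omega
    · exact h1
  -- bounds
  have hT : ∀ i, 0 < i → i < m → ‖∑ x : F, χ (A.eval x ^ i * B.eval x ^ (m - i))‖ ≤
      (D : ℝ) * Real.sqrt (Fintype.card F) := by
    intro i hi0 him
    obtain ⟨i1, t, hcop, hi1, ht⟩ := Nat.exists_coprime i m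
    set d := i.gcd m with hd
    have hd0 : 0 < d := Nat.gcd_pos_of_pos_left _ hi0
    have hit : i1 < t := by
      by_contra hh
      push Not at hh
      have := Nat.mul_le_mul_right d hh
      omega
    have hi10 : 0 < i1 := by
      rcases Nat.eq_zero_or_pos i1 with h1 | h1
      · rw [h1, zero_mul] at hi1
        omega
      · exact h1
    have h1 := bound (n := n) χ m d t i1 hord (by rw [mul_comm]; exact ht.symm) (by omega) hd0 hmF
      hit.le A B hAm hBm hAn hBn (fun p : Fin 0 => (0 : F)) (fun _ => 0) (m * m * (n + k))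
      (by simp) β (by
        rw [rm_formula A B hA0 hB0, rm_zero A β (by rw [hβ]; exact hc),
          rm_simple B hB0 β (by rw [hBe, hβ, sub_self]) (by rw [hBd]; exact hβ')]
        simp only [mul_zero, mul_one, zero_add, univ_eq_empty, sum_empty, add_zero]
        exact cop_aux3 t i1 hcop hit.le)
    have h2 : (t - i1) * d = m - i := by
      rw [Nat.sub_mul, ← ht, ← hi1]
    rw [← hi1, h2] at h1
    simp only [univ_eq_empty, prod_empty, mul_one] at h1
    exact h1
  have hU : ∀ i, i < m → ‖∑ x : F, χ (A.eval x ^ i * B.eval x ^ (m - i) *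
      ∏ p, (x - pt p) ^ (h' p * M))‖ ≤ (D : ℝ) * Real.sqrt (Fintype.card F) := by
    intro i him
    obtain ⟨i1, m1, hcop, hi1, hm1⟩ := Nat.exists_coprime i M
    set d := i.gcd M with hd
    have hd0 : 0 < d := Nat.gcd_pos_of_pos_right _ hM0
    have hm10 : 0 < m1 := by
      rcases Nat.eq_zero_or_pos m1 with h1 | h1
      · rw [h1, zero_mul] at hm1
        omega
      · exact h1
    have hdt : d * (ℓ * m1) = m := by
      rw [hM]
      conv_rhs => rw [hm1]
      ring
    have hit : i1 < ℓ * m1 := by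
      by_contra hh
      push Not at hh
      have := Nat.mul_le_mul_right d hh
      rw [← hi1] at this
      nlinarith
    have hh'l : ∀ p, h' p ≤ ℓ := fun p => (Nat.mod_lt _ hℓ.pos).le
    have hG : ∑ p, h' p * m1 ≤ m * m * (n + k) := by
      have h1 : ∀ p ∈ (univ : Finset (Fin n ⊕ Fin k)), h' p * m1 ≤ m * m := by
        intro p _
        apply Nat.mul_le_mul
        · refine (hh'l p).trans ?_
          rw [hM]
          exact Nat.le_mul_of_pos_right _ hM0
        · rw [← hdt]
          calc m1 ≤ ℓ * m1 := Nat.le_mul_of_pos_left _ hℓ.pos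
            _ ≤ d * (ℓ * m1) := Nat.le_mul_of_pos_left _ hd0
      have h2 := sum_le_card_nsmul _ _ _ h1
      rw [card_univ, Fintype.card_sum, Fintype.card_fin, Fintype.card_fin, smul_eq_mul] at h2
      rw [mul_comm (m * m)]
      exact h2
    have hkey : ∃ v : F, Nat.Coprime (rootMultiplicity v
      (A ^ i1 * B ^ (ℓ * m1 - i1) * ∏ p, (X - C (pt p)) ^ (h' p * m1))) (ℓ * m1) := by
      by_cases hli : ℓ ∣ i1
      · refine ⟨pt p0, ?_⟩
        rw [rm_formula A B hA0 hB0, hsumpt]
        have hp0' : ¬ ℓ ∣ h' p0 := by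
          intro h1
          apply hp0
          exact (Nat.dvd_mod_iff (dvd_refl ℓ)).1 h1
        rw [mul_comm (h' p0)]
        rcases p0 with j | j
        · have e1 : pt (Sum.inl j) = a j := rfl
          rw [e1, rm_pA a ha j, rm_zero B (a j) (by rw [hBe, hAa, zero_sub]; exact neg_ne_zero.2 hc),
            mul_one, mul_zero, add_zero]
          exact cop_aux ℓ m1 i1 _ hℓ hcop hli hp0'
        · have e1 : pt (Sum.inr j) = b j := rfl
          rw [e1, rm_zero A (b j) (by rw [hab]; exact hc),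
            rm_simple B hB0 (b j) (by rw [hBe, hab, sub_self]) (by rw [hBd]; exact hder j),
            mul_one, mul_zero, zero_add]
          exact cop_aux2 ℓ m1 i1 _ hℓ hcop hli hit.le hp0'
      · refine ⟨β, ?_⟩
        rw [rm_formula A B hA0 hB0, hsumβ, rm_zero A β (by rw [hβ]; exact hc),
          rm_simple B hB0 β (by rw [hBe, hβ, sub_self]) (by rw [hBd]; exact hβ'),
          mul_zero, mul_one, zero_add, add_zero]
        apply cop_aux3 _ _ _ hit.le
        apply Nat.Coprime.mul_right _ hcop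
        apply Nat.Coprime.symm
        rw [Nat.Prime.coprime_iff_not_dvd hℓ]
        exact hli
    obtain ⟨v, hv⟩ := hkey
    have h1 := bound (n := n) χ m d (ℓ * m1) i1 hord hdt
      (by have := hℓ.two_le; nlinarith) hd0 hmF
      hit.le A B hAm hBm hAn hBn pt (fun p => h' p * m1) (m * m * (n + k)) hG v hv
    have h2 : (ℓ * m1 - i1) * d = m - i := by
      rw [Nat.sub_mul, mul_comm _ d, hdt, ← hi1]
    have h3 : ∀ p, h' p * m1 * d = h' p * M := by
      intro p
      rw [mul_assoc, ← hm1]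
    simp_rw [h3] at h1
    rw [← hi1, h2] at h1
    exact h1
  -- the functions
  set T : ℕ → F → ℂ := fun i x => χ (A.eval x ^ i * B.eval x ^ (m - i)) with hTd
  set V : F → ℂ := fun x => χ (∏ p, (x - pt p) ^ (h' p * M)) with hVd
  have hgood : ∀ x : F, A.eval x ≠ 0 → B.eval x ≠ 0 → (derivative A).eval x ≠ 0 →
      (∑ i ∈ range m, T i x) * (1 - V x) = 0 := by
    intro x h1 h2 h3
    have hz : A.eval x / B.eval x ≠ 0 := div_ne_zero h1 h2
    by_cases hr : χ (A.eval x / B.eval x) = 1
    · obtain ⟨u, hu⟩ := pow_of_char χ m hord (Units.mk0 _ hz) (by simpa using hr)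
      have hu' : A.eval x / B.eval x = (u : F) ^ m := by
        have := congrArg Units.val hu
        simpa using this
      obtain ⟨y, hy⟩ := hneg x u h1 (by rwa [hBe, sub_ne_zero] at h2) h3 u.ne_zero (by
        rw [← hBe, ← hu', div_mul_cancel₀ _ h2])
      have hxp : ∀ p, x - pt p ≠ 0 := by
        intro p hp1
        rw [sub_eq_zero] at hp1
        rcases p with j | j
        · exact h1 (by rw [hp1]; exact hAa j)
        · exact h2 (by rw [hBe, hp1]; exact sub_eq_zero.2 (hab j))
      have hVx : V x = χ (∏ p, (x - pt p) ^ (h p)) ^ M := by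
        simp only [hVd]
        rw [map_prod, map_prod, ← prod_pow]
        apply prod_congr rfl
        intro p _
        rw [map_pow, map_pow, ← pow_mul]
        have e1 : h p * M = h' p * M + m * (h p / ℓ) := by
          have := Nat.mod_add_div (h p) ℓ
          rw [hM]
          calc h p * M = (h p % ℓ + ℓ * (h p / ℓ)) * M := by rw [this]
            _ = _ := by ring
        rw [e1, pow_add, pow_mul _ m, hχ0 _ (hxp p), one_pow, mul_one]
      have hw0 : ∏ p, (x - pt p) ^ (h p) ≠ 0 :=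
        prod_ne_zero_iff.2 fun p _ => pow_ne_zero _ (hxp p)
      have hy0 : y ≠ 0 := by
        rintro rfl
        rw [zero_pow hℓ.ne_zero, neg_zero] at hy
        exact hw0 (hy.elim id id)
      have hyl : χ (y ^ ℓ) ^ M = 1 := by
        rw [map_pow, ← pow_mul, ← hM]
        exact hχ0 y hy0
      have hV : V x = 1 := by
        rw [hVx]
        rcases hy with hy | hy
        · rw [hy, hyl]
        · rw [hy, ← neg_one_mul, map_mul, char_neg_one χ m hχm h2m, one_mul, hyl]
      rw [hV, sub_self, mul_zero]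
    · have hs : ∑ i ∈ range m, T i x = 0 := by
        have hTi : ∀ i ∈ range m, T i x = χ (A.eval x / B.eval x) ^ i := by
          intro i hi
          rw [mem_range] at hi
          simp only [hTd]
          rw [← map_pow]
          have e1 : A.eval x ^ i * B.eval x ^ (m - i) =
              (A.eval x / B.eval x) ^ i * B.eval x ^ m := by
            rw [div_pow]
            have e2 : B.eval x ^ m = B.eval x ^ (m - i) * B.eval x ^ i := by
              rw [← pow_add]
              congr 1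
              omega
            rw [e2]
            field_simp
          rw [e1, map_mul, map_pow χ (B.eval x), hχ0 _ h2, mul_one]
        rw [sum_congr rfl hTi, geom_sum_eq hr, hχ0 _ hz, sub_self, zero_div]
      rw [hs, zero_mul]
  have hsum : ∑ x : F, (∑ i ∈ range m, T i x) * (1 - V x) =
      ∑ i ∈ range m, ∑ x, T i x - ∑ i ∈ range m, ∑ x, χ (A.eval x ^ i * B.eval x ^ (m - i) *
      ∏ p, (x - pt p) ^ (h' p * M)) := by
    rw [sum_comm (s := range m), sum_comm (s := range m), ← sum_sub_distrib]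
    apply sum_congr rfl
    intro x _
    rw [mul_sub, mul_one, sum_mul]
    congr 1
    apply sum_congr rfl
    intro i _
    simp only [hTd, hVd]
    rw [map_mul χ (A.eval x ^ i * B.eval x ^ (m - i))]
  have hder0 : derivative A ≠ 0 := by
    intro h1
    rw [h1, eval_zero] at hβ'
    exact hβ' rfl
  have hTle : ∀ i x, ‖T i x‖ ≤ 1 := fun i x => norm_char_le χ _
  have hVle : ∀ x, ‖V x‖ ≤ 1 := fun x => norm_char_le χ _
  have hbad : ‖∑ x : F, (∑ i ∈ range m, T i x) * (1 - V x)‖ ≤ 6 * n * m := by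
    have hprod0 : A * B * derivative A ≠ 0 := mul_ne_zero (mul_ne_zero hA0 hB0) hder0
    have hS : (univ.filter fun x : F => (A * B * derivative A).eval x = 0).card ≤ 3 * n := by
      have h4 : (univ.filter fun x : F => (A * B * derivative A).eval x = 0) ⊆
          (A * B * derivative A).roots.toFinset := by
        intro x hx
        rw [mem_filter] at hx
        rw [Multiset.mem_toFinset, mem_roots hprod0]
        exact hx.2
      have h5 := (card_le_card h4).trans ((Multiset.toFinset_card_le _).trans (card_roots' _))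
      have h6 : (A * B * derivative A).natDegree ≤ n + n + n := by
        refine natDegree_mul_le.trans ?_
        refine Nat.add_le_add (natDegree_mul_le.trans (by rw [hAn, hBn])) ?_
        refine (natDegree_derivative_le A).trans ?_
        rw [hAn]
        omega
      omega
    rw [← sum_filter_add_sum_filter_not univ (fun x : F => (A * B * derivative A).eval x = 0)]
    have h7 : ∑ x ∈ univ.filter (fun x : F => ¬ (A * B * derivative A).eval x = 0),
        (∑ i ∈ range m, T i x) * (1 - V x) = 0 := by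
      apply sum_eq_zero
      intro x hx
      rw [mem_filter, eval_mul, eval_mul, mul_eq_zero, mul_eq_zero, not_or, not_or] at hx
      exact hgood x hx.2.1.1 hx.2.1.2 hx.2.2
    rw [h7, add_zero]
    have h8 : ∀ x ∈ univ.filter (fun x : F => (A * B * derivative A).eval x = 0),
        ‖(∑ i ∈ range m, T i x) * (1 - V x)‖ ≤ m * 2 := by
      intro x _
      rw [norm_mul]
      apply mul_le_mul _ _ (norm_nonneg _) (Nat.cast_nonneg _)
      · refine (norm_sum_le _ _).trans ?_
        refine (sum_le_sum fun i _ => hTle i x).trans ?_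
        simp
      · refine (norm_sub_le _ _).trans ?_
        rw [norm_one]
        linarith [hVle x]
    refine (norm_sum_le_of_le _ h8).trans ?_
    rw [sum_const, nsmul_eq_mul]
    have h9 : ((univ.filter fun x : F => (A * B * derivative A).eval x = 0).card : ℝ) ≤ 3 * n := by
      exact_mod_cast hS
    have h10 : (0 : ℝ) ≤ m := Nat.cast_nonneg m
    nlinarith
  have hT0 : ‖∑ x, T 0 x - (Fintype.card F : ℂ)‖ ≤ n := by
    have h1 : (Fintype.card F : ℂ) = ∑ x : F, (1 : ℂ) := by simp
    rw [h1, ← sum_sub_distrib]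
    have h2 : ∀ x : F, ‖T 0 x - 1‖ = if B.eval x = 0 then (1 : ℝ) else 0 := by
      intro x
      simp only [hTd, pow_zero, one_mul, Nat.sub_zero]
      rw [map_pow]
      by_cases hx : B.eval x = 0
      · rw [if_pos hx, hx, χ.map_zero, zero_pow (by omega), zero_sub, norm_neg, norm_one]
      · rw [if_neg hx, hχ0 _ hx, sub_self, norm_zero]
    refine (norm_sum_le _ _).trans ?_
    simp_rw [h2]
    rw [sum_boole]
    have h4 : (univ.filter fun x : F => B.eval x = 0) ⊆ B.roots.toFinset := by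
      intro x hx
      rw [mem_filter] at hx
      rw [Multiset.mem_toFinset, mem_roots hB0]
      exact hx.2
    have h5 := (card_le_card h4).trans ((Multiset.toFinset_card_le _).trans (card_roots' _))
    rw [hBn] at h5
    exact_mod_cast h5
  set s : ℝ := Real.sqrt (Fintype.card F) with hs
  have hs2 : s ^ 2 = Fintype.card F := Real.sq_sqrt (Nat.cast_nonneg _)
  have hT1 : ‖∑ i ∈ (range m).erase 0, ∑ x, T i x‖ ≤ m * (D * s) := by
    refine (norm_sum_le_of_le _ (f := fun i => ∑ x, T i x) (n := fun _ => (D : ℝ) * s) ?_).trans ?_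
    · intro i hi
      rw [mem_erase, mem_range] at hi
      exact hT i (Nat.pos_of_ne_zero hi.1) hi.2
    · rw [sum_const, nsmul_eq_mul]
      apply mul_le_mul_of_nonneg_right _ (by positivity)
      have := card_le_card (erase_subset 0 (range m))
      rw [card_range] at this
      exact_mod_cast this
  have hU1 : ‖∑ i ∈ range m, ∑ x, χ (A.eval x ^ i * B.eval x ^ (m - i) *
      ∏ p, (x - pt p) ^ (h' p * M))‖ ≤ m * (D * s) := by
    refine (norm_sum_le_of_le _ (n := fun _ => (D : ℝ) * s) ?_).trans ?_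
    · intro i hi
      rw [mem_range] at hi
      exact hU i hi
    · rw [sum_const, nsmul_eq_mul, card_range]
  have h0m : 0 ∈ range m := mem_range.2 (by omega)
  rw [← add_sum_erase _ _ h0m] at hsum
  have hfin : (Fintype.card F : ℝ) ≤ n + 6 * n * m + 2 * (m * (D * s)) := by
    have e1 : (Fintype.card F : ℂ) = -(∑ x, T 0 x - (Fintype.card F : ℂ)) +
        ∑ x : F, (∑ i ∈ range m, T i x) * (1 - V x) - ∑ i ∈ (range m).erase 0, ∑ x, T i x +
        ∑ i ∈ range m, ∑ x, χ (A.eval x ^ i * B.eval x ^ (m - i) *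
          ∏ p, (x - pt p) ^ (h' p * M)) := by
      rw [hsum]
      ring
    have e2 : ‖(Fintype.card F : ℂ)‖ = Fintype.card F := by simp
    rw [← e2, e1]
    refine (norm_add_le _ _).trans ?_
    have e3 := norm_sub_le (-(∑ x, T 0 x - (Fintype.card F : ℂ)) +
        ∑ x : F, (∑ i ∈ range m, T i x) * (1 - V x)) (∑ i ∈ (range m).erase 0, ∑ x, T i x)
    have e4 := norm_add_le (-(∑ x, T 0 x - (Fintype.card F : ℂ)))
      (∑ x : F, (∑ i ∈ range m, T i x) * (1 - V x))
    rw [norm_neg] at e4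
    linarith
  have hsge : (2 * m * D + n + 6 * n * m + 1 : ℝ) ≤ s := by
    rw [hs]
    apply Real.le_sqrt_of_sq_le
    exact_mod_cast hQ
  rw [← hs2] at hfin
  have hn0 : (0 : ℝ) ≤ n := Nat.cast_nonneg n
  have hm0 : (0 : ℝ) ≤ m := Nat.cast_nonneg m
  have hD0 : (0 : ℝ) ≤ D := Nat.cast_nonneg D
  have hs1 : 1 ≤ s := by nlinarith [mul_nonneg hm0 hD0, mul_nonneg hn0 hm0]
  nlinarith [mul_nonneg hm0 hD0, mul_nonneg hn0 hm0, mul_le_mul_of_nonneg_right hsge (by linarith : (0 : ℝ) ≤ s)]

end Gen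

theorem main : TaskWeil := by
  intro n k m hn hm
  refine ⟨(2 * m * (n * m + m * m * (n + k)) + n + 6 * n * m + 1) ^ 2, ?_⟩
  intro q hq hQ h2m a b c β ha hb hc hab hder hβ hβ' hβb ℓ hℓ hℓm h hp
  by_contra hneg
  apply gen (F := ZMod q) n k m hn hm (by rw [ZMod.card]; exact hQ) (by rw [ZMod.card]; exact h2m)
    a b c β ha hb hc hab hder hβ hβ' hβb ℓ hℓ hℓm h hp
  intro x u h1 h2 h3 h4 h5
  by_contra hno
  apply hneg
  refine ⟨x, u, h1, h2, h3, h4, h5, ?_⟩
  intro y
  constructor
  · intro h6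
    exact hno ⟨y, Or.inl h6⟩
  · intro h6
    exact hno ⟨y, Or.inr h6⟩

end Pool.Agent.W349.CG.WeilT
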